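import Pool.Agent.H15.FOS.Targets
import Pool.Agent.H3.OD.FO

/-!
# MP_70ba79_ag, board fos_modules, row LCB: the local bound in the plane
-/

set_option autoImplicit false

open MvPolynomial SC Pool.Agent.H27.LV
open Pool.Agent.H84.SM (dp cr dt)
open Pool.Agent.H92.SF Pool.Agent.H3.SF Pool.Agent.H15.FOS

namespace Pool.Agent.H64.FOS

/-- an element whose powers satisfy a relation with constant coefficients is constant -/
theorem const_of_dep {k K : Type} [Field k] [IsAlgClosed k] [Field K] [Algebra k K]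
    {L : IntermediateField k K} (hL : L = ⊥) {N : ℕ} (h : Dep L N) (t : K) :
    ∃ c : k, algebraMap k K c = t := by
  obtain ⟨a, ha, ⟨i0, hi0, hne⟩, hsum⟩ := h t
  have h1 : ∀ i, ∃ c : k, algebraMap k K c = a i := by
    intro i
    have := ha i
    rw [hL, IntermediateField.mem_bot] at this
    exact this
  choose c hc using h1
  obtain ⟨p, hp⟩ : ∃ p : Polynomial k,
      p = ∑ i ∈ Finset.range (N + 1), Polynomial.monomial i (c i) := ⟨_, rfl⟩
  have hpc : p.coeff i0 = c i0 := by
    rw [hp, Polynomial.finsetSum_coeff]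
    simp only [Polynomial.coeff_monomial]
    rw [Finset.sum_ite_eq', if_pos]
    exact Finset.mem_range.2 (by omega)
  have hp0 : p ≠ 0 := by
    intro h0
    rw [h0, Polynomial.coeff_zero] at hpc
    apply hne
    rw [← hc i0, ← hpc, map_zero]
  have hpt : Polynomial.aeval t p = 0 := by
    rw [hp, map_sum, ← hsum]
    refine Finset.sum_congr rfl fun i _ => ?_
    rw [Polynomial.aeval_monomial, hc]
  have halg : IsAlgebraic k t := ⟨p, hp0, hpt⟩
  have hint : IsIntegral k t := halg.isIntegral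
  have h2 : (minpoly k t).degree = 1 := IsAlgClosed.degree_eq_one_of_irreducible k
    (minpoly.irreducible hint)
  have h3 := minpoly.mem_range_of_degree_eq_one k t h2
  exact h3

theorem fos_LCB (hRMF : T_RMF) : T_LCB := by
  intro k _ _ _ d G Q1 hQ1
  obtain ⟨ga, hga⟩ : ∃ ga : MvPolynomial (Fin 2) k, ga = aeval ![1, X 0, X 1] G := ⟨_, rfl⟩
  obtain ⟨gs, hgs⟩ : ∃ gs : MvPolynomial (Fin 2) k, gs = aeval ![1, X 1, X 0] G := ⟨_, rfl⟩
  have hX2 : (X 2 : MvPolynomial (Fin 3) k) ≠ 0 := X_ne_zero 2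
  obtain ⟨q0, h0⟩ := hRMF k Q1 ga 1 hQ1
  obtain ⟨q1, h1⟩ := hRMF k Q1 ga (X 0 ^ d) hQ1
  obtain ⟨q2, h2⟩ := hRMF k Q1 ga (X 1 ^ d) hQ1
  obtain ⟨p0, g0⟩ := hRMF k (X 2) gs 1 hX2
  obtain ⟨p1, g1⟩ := hRMF k (X 2) gs (X 0 ^ d) hX2
  obtain ⟨p2, g2⟩ := hRMF k (X 2) gs (X 1 ^ d) hX2
  refine ⟨q0 + q1 + q2 + (p0 + p2 + p1), ?_⟩
  intro K _ _ _ htr N x y D hxy hD hQ hG v
  have e1 : aeval ![x, y] ga = aeval ![1, x, y] G := by
    rw [hga, comp_aeval_apply]
    have h : (fun i => aeval ![x, y] ((![1, X 0, X 1] : Fin 3 → MvPolynomial (Fin 2) k) i)) =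
        ![(1 : K), x, y] := by
      funext i
      fin_cases i
      · exact map_one _
      · exact aeval_X _ _
      · exact aeval_X _ _
    rw [h]
  have e2 : aeval ![y, x] gs = aeval ![1, x, y] G := by
    rw [hgs, comp_aeval_apply]
    have h : (fun i => aeval ![y, x] ((![1, X 1, X 0] : Fin 3 → MvPolynomial (Fin 2) k) i)) =
        ![(1 : K), x, y] := by
      funext i
      fin_cases i
      · exact map_one _
      · exact aeval_X _ _
      · exact aeval_X _ _
    rw [h]
  obtain ⟨g, hg⟩ : ∃ g, g = aeval ![1, x, y] G := ⟨_, rfl⟩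
  rw [← hg] at hG e1 e2 ⊢
  have hX0 : ∀ z w : K, aeval ![z, w] ((X 0 : MvPolynomial (Fin 2) k) ^ d) = z ^ d := fun z w => by
    rw [map_pow, aeval_X]
    rfl
  have hX1 : ∀ z w : K, aeval ![z, w] ((X 1 : MvPolynomial (Fin 2) k) ^ d) = w ^ d := fun z w => by
    rw [map_pow, aeval_X]
    rfl
  have hone : ∀ z w : K, aeval ![z, w] (1 : MvPolynomial (Fin 2) k) = 1 := fun z w => map_one _
  have hN : ∀ q : ℕ, (0 : ℤ) ≤ (q : ℤ) * N := fun q =>
    mul_nonneg (Int.natCast_nonneg q) (Int.natCast_nonneg N)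
  by_cases hx : D x = 0
  · have hy : D y ≠ 0 := by
      intro hy0
      apply hD
      have hkx : ∃ c : k, algebraMap k K c = x := Pool.Agent.H27.LV.ker k K htr D hD x hx
      have hky : ∃ c : k, algebraMap k K c = y := Pool.Agent.H27.LV.ker k K htr D hD y hy0
      have hbot : IntermediateField.adjoin k {x, y} = (⊥ : IntermediateField k K) := by
        rw [IntermediateField.adjoin_eq_bot_iff]
        rintro z (rfl | rfl)
        · exact IntermediateField.mem_bot.2 hkx
        · exact IntermediateField.mem_bot.2 hky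
      ext t
      obtain ⟨c, rfl⟩ := const_of_dep hbot hxy t
      rw [D.map_algebraMap, Derivation.zero_apply]
    have hyx : Dep (IntermediateField.adjoin k {y, x}) N := by
      rw [Set.pair_comm]
      exact hxy
    have hq : aeval ![y, x, D x / D y] (X 2 : MvPolynomial (Fin 3) k) = 0 := by
      rw [aeval_X]
      change D x / D y = 0
      rw [hx, zero_div]
    have k0 := g0 K htr N y x D hyx hy hq (by rw [hone]; exact one_ne_zero) v
    have k1 : y ≠ 0 → v.ord (g / y ^ d) ≤ ((p1 * N : ℕ) : ℤ) := fun h => by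
      have := g1 K htr N y x D hyx hy hq (by rw [hX0]; exact pow_ne_zero d h) v
      rw [hX0, e2] at this
      push_cast
      exact this
    have k2 : x ≠ 0 → v.ord (g / x ^ d) ≤ ((p2 * N : ℕ) : ℤ) := fun h => by
      have := g2 K htr N y x D hyx hy hq (by rw [hX1]; exact pow_ne_zero d h) v
      rw [hX1, e2] at this
      push_cast
      exact this
    rw [hone, div_one, e2] at k0
    have := Pool.Agent.H3.OD.fo_loc v g x y d (p0 * N) (p2 * N) (p1 * N) hG
      (by push_cast; exact k0) k2 k1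
    push_cast at this ⊢
    nlinarith [hN q0, hN q1, hN q2]
  · have hq := hQ hx
    have k0 := h0 K htr N x y D hxy hx hq (by rw [hone]; exact one_ne_zero) v
    have k1 : x ≠ 0 → v.ord (g / x ^ d) ≤ ((q1 * N : ℕ) : ℤ) := fun h => by
      have := h1 K htr N x y D hxy hx hq (by rw [hX0]; exact pow_ne_zero d h) v
      rw [hX0, e1] at this
      push_cast
      exact this
    have k2 : y ≠ 0 → v.ord (g / y ^ d) ≤ ((q2 * N : ℕ) : ℤ) := fun h => by
      have := h2 K htr N x y D hxy hx hq (by rw [hX1]; exact pow_ne_zero d h) v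
      rw [hX1, e1] at this
      push_cast
      exact this
    rw [hone, div_one, e1] at k0
    have := Pool.Agent.H3.OD.fo_loc v g x y d (q0 * N) (q1 * N) (q2 * N) hG
      (by push_cast; exact k0) k1 k2
    push_cast at this ⊢
    nlinarith [hN p0, hN p1, hN p2]

end Pool.Agent.H64.FOS
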